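import Mathlib
import Pool.Agent.H54B.Defs
import Pool.Agent.H54B.NonUnif

set_option autoImplicit false

open MeasureTheory ENNReal NNReal Pool.Agent.H54B

/-- If the quasi-norm constants are allowed to depend on the cube, `BMO ↪ BMO_X` does not imply
`BMO_X ↪ BMO`. -/
theorem Pool.Agent.Results.MP_ea8870_an.QOneNonuniform.result (n : ℕ) [NeZero n] :
    ∃ X : (Fin n → ℝ) → ℝ → ((Fin n → ℝ) → ℝ) → ℝ≥0∞,
      IsFamily X ∧ IsNormalized X ∧ EmbBMO X ∧ ¬ EmbBMOX X :=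
  ⟨YY, YY_family, YY_normalized, YY_emb, YY_not⟩
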