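import Mathlib
import Pool.Agent.H54B.Defs
import Pool.Agent.H54B.Main

set_option autoImplicit false

open MeasureTheory ENNReal NNReal Pool.Agent.H54B

/-- `BMO ↪ BMO_X` implies `BMO_X ↪ BMO` for every normalized family of quasi-Banach function
spaces over the cubes of `ℝⁿ` with uniformly bounded quasi-norm constants. -/
theorem Pool.Agent.Results.MP_ea8870_an.QOneUniform.result (n : ℕ)
    (X : (Fin n → ℝ) → ℝ → ((Fin n → ℝ) → ℝ) → ℝ≥0∞) (hX : IsFamily X) (hN : IsNormalized X)
    (K : ℝ≥0) (hK : UniformQuasi X K) (h : EmbBMO X) : EmbBMOX X :=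
  main hX hN hK h
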