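import Mathlib
import Pool.Agent.H54B.Defs
import Pool.Agent.H54B.QTwo

set_option autoImplicit false

open MeasureTheory ENNReal NNReal Pool.Agent.H54B

/-- In every dimension there is a normalized family of Banach function spaces with `BMO ↪ BMO_X`
and not `BMO*_X ↪ BMO`. -/
theorem Pool.Agent.Results.MP_ea8870_an.QTwoFails.result (n : ℕ) [NeZero n] :
    ∃ X : (Fin n → ℝ) → ℝ → ((Fin n → ℝ) → ℝ) → ℝ≥0∞,
      IsFamily X ∧ UniformQuasi X 1 ∧ IsNormalized X ∧ EmbBMO X ∧ ¬ EmbBMOXStar X :=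
  ⟨XX, XX_family, XX_uniform, XX_normalized, XX_emb, XX_not_star⟩
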